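import Pool.Agent.Q259.PrimeBlocks

/-!
# Adjacent blocks with equally many primes: the statement fails for `n = 14` and for `n = 286`
-/

namespace Pool.Agent.Results.MP_b665a0_nt.TwoCounterexamples

open Pool.Agent.Q259.PB

/-- There is `k` with `1 ≤ k < n` and `2 k + 1` prime such that the intervals `((k - 1) n, k n]` and
`(k n, (k + 1) n]` contain the same number of primes. -/
def Good (n : ℕ) : Prop :=
  ∃ k : ℕ, 1 ≤ k ∧ k < n ∧ (2 * k + 1).Prime ∧
    (Nat.primeCounting (k * n) : ℤ) - Nat.primeCounting ((k - 1) * n) =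
      (Nat.primeCounting ((k + 1) * n) : ℤ) - Nat.primeCounting (k * n)

/-- `m` is divisible by a prime up to `23` and different from it (a sufficient test) -/
def comp (m : ℕ) : Bool :=
  or (and (Nat.beq (Nat.mod m 3) 0) (Nat.ble 4 m)) (or (and (Nat.beq (Nat.mod m 5) 0) (Nat.ble 6 m))
    (and (not (Nat.beq (Nat.gcd m 7436429) 1)) (Nat.ble 24 m)))

theorem comp_spec {m : ℕ} (h : comp m = true) : ¬ m.Prime := by
  unfold comp at h
  simp only [Bool.or_eq_true, Bool.and_eq_true, Bool.not_eq_true'] at h
  intro hp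
  rcases h with ⟨h1, h2⟩ | ⟨h1, h2⟩ | ⟨h1, h2⟩
  · have h1 := Nat.dvd_of_mod_eq_zero (Nat.eq_of_beq_eq_true h1)
    have h2 := Nat.le_of_ble_eq_true h2
    have := (Nat.prime_dvd_prime_iff_eq Nat.prime_three hp).1 h1
    omega
  · have h1 := Nat.dvd_of_mod_eq_zero (Nat.eq_of_beq_eq_true h1)
    have h2 := Nat.le_of_ble_eq_true h2
    have := (Nat.prime_dvd_prime_iff_eq Nat.prime_five hp).1 h1
    omega
  · have h1 := Nat.ne_of_beq_eq_false h1
    have h2 := Nat.le_of_ble_eq_true h2
    have h3 : m ∣ 7436429 := by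
      rcases (Nat.dvd_prime hp).1 (Nat.gcd_dvd_left m 7436429) with h4 | h4
      · exact absurd h4 h1
      · rw [← h4]; exact Nat.gcd_dvd_right m _
    have h4 : (7436429 : ℕ) = 7 * 11 * 13 * 17 * 19 * 23 := by norm_num
    rw [h4] at h3
    simp only [hp.dvd_mul] at h3
    rcases h3 with ((((h3 | h3) | h3) | h3) | h3) | h3 <;>
      have := Nat.le_of_dvd (by norm_num) h3 <;> omega

theorem not_good_14 : ¬ Good 14 := by
  rintro ⟨k, h1, h2, h3, h4⟩
  have hc : ∀ a b : ℕ, 16 ≤ a → a < 289 → b < 289 → a ≤ b →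
      (Nat.primeCounting b : ℤ) - Nat.primeCounting a = (cnt P13 16 (b - 16) : ℤ) - cnt P13 16 (a - 16) := by
    intro a b ha ha' hb hab
    rw [pi_small ha ha', pi_small (by omega) hb]
    push_cast
    ring
  have h14 : Nat.primeCounting 14 = 6 := by
    unfold Nat.primeCounting Nat.primeCounting'
    norm_num [Nat.count_succ]
  have h0 : Nat.primeCounting 0 = 0 := by simp
  have key : allBelow (fun k => or (Nat.ble k 2) (or (comp (2 * k + 1))
      (not (Nat.beq (Nat.add (cnt P13 16 (k * 14 - 16)) (cnt P13 16 (k * 14 - 16)))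
        (Nat.add (cnt P13 16 ((k + 1) * 14 - 16)) (cnt P13 16 ((k - 1) * 14 - 16))))))) 14 = true := by
    decide +kernel
  rcases Nat.lt_or_ge 2 k with h5 | h5
  · have h6 := allBelow_spec key k h2
    simp only [Bool.or_eq_true, Bool.not_eq_true'] at h6
    rcases h6 with h6 | h6 | h6
    · have := Nat.le_of_ble_eq_true h6
      omega
    · exact comp_spec h6 h3
    · have h6 := Nat.ne_of_beq_eq_false h6
      apply h6
      have e1 := hc ((k - 1) * 14) (k * 14) (by omega) (by omega) (by omega) (by omega)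
      have e2 := hc (k * 14) ((k + 1) * 14) (by omega) (by omega) (by omega) (by omega)
      have h7 : (Nat.add (cnt P13 16 (k * 14 - 16)) (cnt P13 16 (k * 14 - 16))) =
        cnt P13 16 (k * 14 - 16) + cnt P13 16 (k * 14 - 16) := rfl
      have h8 : (Nat.add (cnt P13 16 ((k + 1) * 14 - 16)) (cnt P13 16 ((k - 1) * 14 - 16))) =
        cnt P13 16 ((k + 1) * 14 - 16) + cnt P13 16 ((k - 1) * 14 - 16) := rfl
      rw [h7, h8]
      omega
  · have h28 : Nat.primeCounting 28 = 9 := by
      rw [pi_small (by norm_num) (by norm_num)]; decide +kernel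
    have h42 : Nat.primeCounting 42 = 13 := by
      rw [pi_small (by norm_num) (by norm_num)]; decide +kernel
    interval_cases k
    · norm_num at h4
      rw [h14, h28] at h4
      norm_num at h4
    · norm_num at h4
      rw [h14, h28, h42] at h4
      norm_num at h4

theorem not_good_286 : ¬ Good 286 := by
  rintro ⟨k, h1, h2, h3, h4⟩
  have hc : ∀ j : ℕ, 2 ≤ j → j ≤ 287 → Nat.primeCounting (j * 286) =
      Nat.primeCounting ((j - 1) * 286) + cnt P283 ((j - 1) * 286) 286 := by
    intro j hj hj'
    have h5 : j * 286 = (j - 1) * 286 + 286 := by omega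
    rw [h5]
    exact pi_large (by omega) (by omega)
  have key : allBelow (fun k => or (Nat.ble k 1) (or (comp (2 * k + 1))
      (not (Nat.beq (cnt P283 ((k - 1) * 286) 286) (cnt P283 (k * 286) 286))))) 286 = true := by
    decide +kernel
  have e2 := hc (k + 1) (by omega) (by omega)
  rw [Nat.add_sub_cancel] at e2
  rcases Nat.lt_or_ge 1 k with h5 | h5
  · have h6 := allBelow_spec key k h2
    simp only [Bool.or_eq_true, Bool.not_eq_true'] at h6
    rcases h6 with h6 | h6 | h6
    · have := Nat.le_of_ble_eq_true h6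
      omega
    · exact comp_spec h6 h3
    · have h6 := Nat.ne_of_beq_eq_false h6
      apply h6
      have e1 := hc k (by omega) (by omega)
      omega
  · have h7 : k = 1 := by omega
    subst h7
    have h8 : cnt P283 (1 * 286) 286 = 44 := by decide +kernel
    rw [h8] at e2
    rw [e2] at h4
    have h9 : Nat.primeCounting ((1 - 1) * 286) = 0 := by simp
    have h10 : Nat.primeCounting (1 * 286) = 61 := pi286
    rw [h9, h10] at h4
    omega

/-- **The assertion of the question is false**: it fails for `n = 14` and for `n = 286`. -/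
theorem result : ¬ (∀ n : ℕ, 1 < n → n ≠ 8 → Good n) ∧ ¬ Good 14 ∧ ¬ Good 286 :=
  ⟨fun h => not_good_14 (h 14 (by norm_num) (by norm_num)), not_good_14, not_good_286⟩

end Pool.Agent.Results.MP_b665a0_nt.TwoCounterexamples
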